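import Pool.Agent.H49.Shaf

set_option autoImplicit false

namespace Pool.Agent.Results.MP_a47518_nt.GoodReductionDense

open Polynomial

/-- The degree-`d` maps `F / G` over `ℚ` with integral coefficients whose resultant (as binary forms
of degree `d`) is divisible by no odd prime, i.e. with good reduction outside `{2, ∞}`, are Zariski
dense in the whole space of coefficient vectors. -/
theorem result (d : ℕ) (P : MvPolynomial (Fin (d + 1) ⊕ Fin (d + 1)) ℂ)
    (hP : ∀ F G : ℤ[X], F.natDegree ≤ d → G.natDegree ≤ d →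
      (∀ p : ℕ, p.Prime → p ≠ 2 → ¬ (p : ℤ) ∣ resultant F G d d) →
      MvPolynomial.eval (Sum.elim (fun i : Fin (d + 1) => ((F.coeff i : ℤ) : ℂ))
        (fun i : Fin (d + 1) => ((G.coeff i : ℤ) : ℂ))) P = 0) : P = 0 :=
  Pool.Agent.H49.Shaf.main d P hP

end Pool.Agent.Results.MP_a47518_nt.GoodReductionDense
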